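import Mathlib

set_option autoImplicit false
set_option linter.unusedSectionVars false

open Classical

namespace Pool.Agent.Lib.MP_5b7fe5_co

/-- partial functions from the `n`-element chain `Fin n` to the `t`-element chain `Fin t`;
`none` means undefined -/
abbrev PFun (n t : ℕ) := Fin n → Option (Fin t)

/-- the partial function is monotone on its domain -/
def Mono {n t : ℕ} (f : PFun n t) : Prop :=
  ∀ x y a b, x ≤ y → f x = some a → f y = some b → a ≤ b

/-- `x` and `y` are in the domain of `f` and `f x < f y` -/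
def Sep {n t : ℕ} (f : PFun n t) (x y : Fin n) : Prop :=
  ∃ a b, f x = some a ∧ f y = some b ∧ a < b

/-- fractional local `t`-realiser of the `n`-chain: nonnegative weights on the monotone partial
functions separating every pair `x < y` with total weight at least one -/
def IsRealiser (n t : ℕ) (w : PFun n t → ℝ) : Prop :=
  (∀ f, 0 ≤ w f) ∧ (∀ f, ¬ Mono f → w f = 0) ∧
    ∀ x y : Fin n, x < y → 1 ≤ ∑ f : PFun n t, if Sep f x y then w f else 0

/-- the local weight of `w` at `x`: total weight of the functions defined at `x` -/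
noncomputable def localWeight {n t : ℕ} (w : PFun n t → ℝ) (x : Fin n) : ℝ :=
  ∑ f : PFun n t, if f x = none then 0 else w f

/-- the fractional local `t`-dimension of the `n`-element chain -/
noncomputable def ldim (t n : ℕ) : ℝ :=
  sInf {M : ℝ | ∃ w : PFun n t → ℝ, IsRealiser n t w ∧ ∀ x, localWeight w x ≤ M}

/-- `M` is achievable -/
def Ach (n t : ℕ) (M : ℝ) : Prop :=
  ∃ w : PFun n t → ℝ, IsRealiser n t w ∧ ∀ x, localWeight w x ≤ M

lemma ldim_def (t n : ℕ) : ldim t n = sInf {M : ℝ | Ach n t M} := rfl

/-- a weighted family of monotone partial functions gives a realiser -/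
lemma ach_of_family {n t : ℕ} {ι : Type*} [Fintype ι] (F : ι → PFun n t) (w : ι → ℝ) (M : ℝ)
    (h0 : ∀ i, 0 ≤ w i) (hm : ∀ i, ¬ Mono (F i) → w i = 0)
    (hs : ∀ x y : Fin n, x < y → 1 ≤ ∑ i, if Sep (F i) x y then w i else 0)
    (hl : ∀ x, ∑ i, (if F i x = none then 0 else w i) ≤ M) : Ach n t M := by
  have push : ∀ Q : PFun n t → Prop, ∑ f : PFun n t, (if Q f then
      (∑ i, if F i = f then w i else 0) else 0) = ∑ i, if Q (F i) then w i else 0 := by
    intro Q
    have e1 : ∀ f : PFun n t, (if Q f then (∑ i, if F i = f then w i else 0) else 0)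
        = ∑ i, if F i = f then (if Q f then w i else 0) else 0 := by
      intro f
      by_cases hQ : Q f
      · simp [hQ]
      · simp [hQ]
    rw [Finset.sum_congr rfl fun f _ => e1 f, Finset.sum_comm]
    refine Finset.sum_congr rfl fun i _ => ?_
    simp
  refine ⟨fun f => ∑ i, if F i = f then w i else 0, ⟨?_, ?_, ?_⟩, ?_⟩
  · intro f
    refine Finset.sum_nonneg fun i _ => ?_
    split_ifs
    · exact h0 i
    · exact le_rfl
  · intro f hf
    refine Finset.sum_eq_zero fun i _ => ?_
    split_ifs with h
    · exact hm i (by rw [h]; exact hf)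
    · rfl
  · intro x y hxy
    rw [push (fun f => Sep f x y)]
    exact hs x y hxy
  · intro x
    have h1 := push (fun f => ¬ f x = none)
    have e1 : localWeight (fun f => ∑ i, if F i = f then w i else 0) x
        = ∑ i, if F i x = none then 0 else w i := by
      rw [localWeight]
      convert h1 using 2
      · split_ifs <;> simp_all
      · split_ifs <;> simp_all
    rw [e1]
    exact hl x

/-- weak duality -/
lemma weak_duality {n t : ℕ} (M : ℝ) (hM : Ach n t M) (q : Fin n → ℝ) (p : Fin n → Fin n → ℝ)
    (hq : ∀ x, 0 ≤ q x) (hp : ∀ x y, 0 ≤ p x y)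
    (hf : ∀ f : PFun n t, Mono f →
      ∑ x, ∑ y, (if x < y ∧ Sep f x y then p x y else 0) ≤ ∑ x, if f x = none then 0 else q x) :
    ∑ x, ∑ y, (if x < y then p x y else 0) ≤ M * ∑ x, q x := by
  obtain ⟨w, ⟨hw0, hwm, hws⟩, hl⟩ := hM
  have h1 : ∑ x, ∑ y, (if x < y then p x y else 0)
      ≤ ∑ x, ∑ y, ∑ f : PFun n t, (if x < y ∧ Sep f x y then p x y else 0) * w f := by
    refine Finset.sum_le_sum fun x _ => Finset.sum_le_sum fun y _ => ?_
    by_cases hxy : x < y
    · rw [if_pos hxy]
      have e : ∑ f : PFun n t, (if x < y ∧ Sep f x y then p x y else 0) * w f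
          = p x y * ∑ f : PFun n t, (if Sep f x y then w f else 0) := by
        rw [Finset.mul_sum]
        refine Finset.sum_congr rfl fun f _ => ?_
        by_cases hS : Sep f x y
        · simp [hS, hxy]
        · simp [hS]
      rw [e]
      have := mul_le_mul_of_nonneg_left (hws x y hxy) (hp x y)
      linarith
    · simp [hxy]
  have h2 : ∑ x, ∑ y, ∑ f : PFun n t, (if x < y ∧ Sep f x y then p x y else 0) * w f
      = ∑ f : PFun n t, (∑ x, ∑ y, (if x < y ∧ Sep f x y then p x y else 0)) * w f := by
    have : ∀ x : Fin n, ∑ y, ∑ f : PFun n t, (if x < y ∧ Sep f x y then p x y else 0) * w f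
        = ∑ f : PFun n t, ∑ y, (if x < y ∧ Sep f x y then p x y else 0) * w f :=
      fun x => Finset.sum_comm
    rw [Finset.sum_congr rfl fun x _ => this x, Finset.sum_comm]
    refine Finset.sum_congr rfl fun f _ => ?_
    rw [Finset.sum_mul]
    refine Finset.sum_congr rfl fun x _ => ?_
    rw [Finset.sum_mul]
  have h3 : ∑ f : PFun n t, (∑ x, ∑ y, (if x < y ∧ Sep f x y then p x y else 0)) * w f
      ≤ ∑ f : PFun n t, (∑ x, if f x = none then 0 else q x) * w f := by
    refine Finset.sum_le_sum fun f _ => ?_
    by_cases hm : Mono f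
    · exact mul_le_mul_of_nonneg_right (hf f hm) (hw0 f)
    · rw [hwm f hm]
      simp
  have h4 : ∑ f : PFun n t, (∑ x, if f x = none then 0 else q x) * w f
      = ∑ x, q x * localWeight w x := by
    have : ∀ f : PFun n t, (∑ x, if f x = none then 0 else q x) * w f
        = ∑ x, q x * (if f x = none then 0 else w f) := by
      intro f
      rw [Finset.sum_mul]
      refine Finset.sum_congr rfl fun x _ => ?_
      split_ifs <;> simp
    rw [Finset.sum_congr rfl fun f _ => this f, Finset.sum_comm]
    refine Finset.sum_congr rfl fun x _ => ?_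
    rw [localWeight, Finset.mul_sum]
  have h5 : ∑ x, q x * localWeight w x ≤ M * ∑ x, q x := by
    rw [Finset.mul_sum]
    refine Finset.sum_le_sum fun x _ => ?_
    rw [mul_comm M]
    exact mul_le_mul_of_nonneg_left (hl x) (hq x)
  linarith

/-- submultiplicativity -/
lemma ach_mul {m n t : ℕ} {M N : ℝ} (hM : Ach m t M) (hN : Ach n t N) :
    Ach (m * n) t (M + N) := by
  obtain ⟨w, ⟨hw0, hwm, hws⟩, hl⟩ := hM
  obtain ⟨v, ⟨hv0, hvm, hvs⟩, hk⟩ := hN
  let F : PFun m t ⊕ (Fin m × PFun n t) → PFun (m * n) t := fun s => match s with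
    | Sum.inl f => fun z => f z.divNat
    | Sum.inr (i, g) => fun z => if z.divNat = i then g z.modNat else none
  let u : PFun m t ⊕ (Fin m × PFun n t) → ℝ := fun s => match s with
    | Sum.inl f => w f
    | Sum.inr (i, g) => v g
  have hdiv : ∀ z z' : Fin (m * n), z ≤ z' → z.divNat ≤ z'.divNat := by
    intro z z' h
    exact Nat.div_le_div_right (c := n) h
  have hmod : ∀ z z' : Fin (m * n), z.divNat = z'.divNat → (z ≤ z' ↔ z.modNat ≤ z'.modNat) := by
    intro z z' h
    have h1 : (z : ℕ) / n = (z' : ℕ) / n := congrArg Fin.val h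
    have h2 := Nat.div_add_mod (z : ℕ) n
    have h3 := Nat.div_add_mod (z' : ℕ) n
    rw [Fin.le_def, Fin.le_def]
    change (z : ℕ) ≤ z' ↔ (z : ℕ) % n ≤ (z' : ℕ) % n
    rw [h1] at h2
    omega
  have hmod' : ∀ z z' : Fin (m * n), z.divNat = z'.divNat → z < z' → z.modNat < z'.modNat := by
    intro z z' h hlt
    by_contra hcon
    have := (hmod z' z h.symm).2 (not_lt.1 hcon)
    exact absurd hlt (not_lt.2 this)
  refine ach_of_family F u (M + N) ?_ ?_ ?_ ?_
  · rintro (f | ⟨i, g⟩)
    · exact hw0 f
    · exact hv0 g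
  · rintro (f | ⟨i, g⟩) h
    · apply hwm
      intro hf
      apply h
      intro z z' a b hz ha hb
      exact hf _ _ a b (hdiv z z' hz) ha hb
    · apply hvm
      intro hg
      apply h
      intro z z' a b hz ha hb
      simp only [F] at ha hb
      by_cases h1 : z.divNat = i
      · by_cases h2 : z'.divNat = i
        · rw [if_pos h1] at ha
          rw [if_pos h2] at hb
          exact hg _ _ a b ((hmod z z' (h1.trans h2.symm)).1 hz) ha hb
        · rw [if_neg h2] at hb
          simp at hb
      · rw [if_neg h1] at ha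
        simp at ha
  · intro z z' hzz
    rw [Fintype.sum_sum_type, Fintype.sum_prod_type]
    have hA : 0 ≤ ∑ f : PFun m t, (if Sep (F (Sum.inl f)) z z' then u (Sum.inl f) else 0) := by
      refine Finset.sum_nonneg fun f _ => ?_
      split_ifs
      · exact hw0 f
      · exact le_rfl
    have hB : 0 ≤ ∑ i : Fin m, ∑ g : PFun n t,
        (if Sep (F (Sum.inr (i, g))) z z' then u (Sum.inr (i, g)) else 0) := by
      refine Finset.sum_nonneg fun i _ => Finset.sum_nonneg fun g _ => ?_
      split_ifs
      · exact hv0 g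
      · exact le_rfl
    rcases lt_or_eq_of_le (hdiv z z' hzz.le) with hlt | heq
    · have h1 := hws _ _ hlt
      have h2 : ∑ f : PFun m t, (if Sep (F (Sum.inl f)) z z' then u (Sum.inl f) else 0)
          = ∑ f : PFun m t, (if Sep f z.divNat z'.divNat then w f else 0) := by
        refine Finset.sum_congr rfl fun f _ => ?_
        rfl
      linarith
    · have h1 := hvs _ _ (hmod' z z' heq hzz)
      have h2 : ∑ g : PFun n t, (if Sep g z.modNat z'.modNat then v g else 0)
          ≤ ∑ i : Fin m, ∑ g : PFun n t,
        (if Sep (F (Sum.inr (i, g))) z z' then u (Sum.inr (i, g)) else 0) := by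
        have h3 : ∀ i : Fin m, 0 ≤ ∑ g : PFun n t,
            (if Sep (F (Sum.inr (i, g))) z z' then u (Sum.inr (i, g)) else 0) := by
          intro i
          refine Finset.sum_nonneg fun g _ => ?_
          split_ifs
          · exact hv0 g
          · exact le_rfl
        refine le_trans (le_of_eq ?_) (Finset.single_le_sum (fun i _ => h3 i)
          (Finset.mem_univ z.divNat))
        refine Finset.sum_congr rfl fun g _ => ?_
        have h4 : Sep (F (Sum.inr (z.divNat, g))) z z' ↔ Sep g z.modNat z'.modNat := by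
          simp only [Sep, F, if_true, heq.symm]
        by_cases h5 : Sep g z.modNat z'.modNat
        · rw [if_pos h5, if_pos (h4.2 h5)]
        · rw [if_neg h5, if_neg (fun h => h5 (h4.1 h))]
      linarith
  · intro z
    rw [Fintype.sum_sum_type, Fintype.sum_prod_type]
    have h1 := hl z.divNat
    have h2 := hk z.modNat
    rw [localWeight] at h1 h2
    have h3 : ∑ i : Fin m, ∑ g : PFun n t,
        (if F (Sum.inr (i, g)) z = none then 0 else u (Sum.inr (i, g)))
        = ∑ g : PFun n t, (if g z.modNat = none then 0 else v g) := by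
      rw [Finset.sum_eq_single z.divNat]
      · refine Finset.sum_congr rfl fun g _ => ?_
        simp [F, u]
      · intro i _ hi
        refine Finset.sum_eq_zero fun g _ => ?_
        simp [F, Ne.symm hi]
      · simp
    rw [h3]
    have h4 : ∑ f : PFun m t, (if F (Sum.inl f) z = none then 0 else u (Sum.inl f))
        = ∑ f : PFun m t, (if f z.divNat = none then 0 else w f) := by
      refine Finset.sum_congr rfl fun f _ => ?_
      rfl
    rw [h4]
    linarith

end Pool.Agent.Lib.MP_5b7fe5_co
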