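import Mathlib
import Pool.Agent.Lib.MP_5b7fe5_co.Basic

set_option autoImplicit false
set_option linter.unusedSectionVars false

open Classical

namespace Pool.Agent.Lib.MP_5b7fe5_co

/-- real harmonic numbers -/
noncomputable def Hn (k : ℕ) : ℝ := ∑ i ∈ Finset.range k, 1 / ((i : ℝ) + 1)

lemma Hn_succ (k : ℕ) : Hn (k + 1) = Hn k + 1 / ((k : ℝ) + 1) := by
  rw [Hn, Finset.sum_range_succ]
  rfl

lemma mul_Hn_succ (k : ℕ) : ((k + 1 : ℕ) : ℝ) * Hn (k + 1) = k * Hn k + Hn k + 1 := by
  rw [Hn_succ]
  push_cast
  have : (k : ℝ) + 1 ≠ 0 := by positivity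
  field_simp

lemma Hn_sub_le_log {n N : ℕ} (hn : 1 ≤ n) (h : n ≤ N) :
    Hn N - Hn n ≤ Real.log N - Real.log n := by
  induction N, h using Nat.le_induction with
  | base => simp
  | succ N hN ih =>
    rw [Hn_succ]
    have hN0 : (0 : ℝ) < N := by exact_mod_cast (lt_of_lt_of_le hn hN)
    have h1 := Real.one_sub_inv_le_log_of_pos (x := ((N : ℝ) + 1) / N) (by positivity)
    rw [Real.log_div (by positivity) (by positivity)] at h1
    have h2 : 1 - (((N : ℝ) + 1) / N)⁻¹ = 1 / ((N : ℝ) + 1) := by
      field_simp
      ring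
    rw [h2] at h1
    push_cast
    linarith

lemma log_succ_le_Hn (n : ℕ) : Real.log ((n : ℝ) + 1) ≤ Hn n := by
  induction n with
  | zero => simp [Hn]
  | succ n ih =>
    rw [Hn_succ]
    have h1 := Real.log_le_sub_one_of_pos (x := ((n : ℝ) + 1 + 1) / (n + 1)) (by positivity)
    rw [Real.log_div (by positivity) (by positivity)] at h1
    have h2 : ((n : ℝ) + 1 + 1) / (n + 1) - 1 = 1 / ((n : ℝ) + 1) := by
      field_simp
      ring
    rw [h2] at h1
    push_cast
    linarith

lemma log_le_Hn (n : ℕ) (hn : 1 ≤ n) : Real.log n ≤ Hn n := by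
  refine le_trans ?_ (log_succ_le_Hn n)
  apply Real.log_le_log
  · exact_mod_cast hn
  · linarith

/-- reciprocals of distinct integers larger than `m` -/
lemma recip_sum_le (m : ℕ) (D : Finset ℕ) (hD : ∀ x ∈ D, m < x) :
    ∑ x ∈ D, 1 / (x : ℝ) ≤ Hn (m + D.card) - Hn m := by
  induction D using Finset.induction_on_max with
  | empty => simp
  | insert a D ha ih =>
    have haD : a ∉ D := fun h => lt_irrefl _ (ha a h)
    rw [Finset.sum_insert haD, Finset.card_insert_of_notMem haD, ← add_assoc, Hn_succ]
    have h1 := ih (fun x hx => hD x (Finset.mem_insert_of_mem hx))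
    have hsub : D ⊆ Finset.Ioo m a := by
      intro x hx
      exact Finset.mem_Ioo.2 ⟨hD x (Finset.mem_insert_of_mem hx), ha x hx⟩
    have hcard := Finset.card_le_card hsub
    rw [Nat.card_Ioo] at hcard
    have ham : m < a := hD a (Finset.mem_insert_self a D)
    have h2 : m + D.card + 1 ≤ a := by omega
    have h3 : (((m + D.card : ℕ) : ℝ) + 1) ≤ a := by exact_mod_cast h2
    have h4 : 1 / (a : ℝ) ≤ 1 / (((m + D.card : ℕ) : ℝ) + 1) :=
      one_div_le_one_div_of_le (by positivity) h3
    linarith

/-- number of elements of the domain with value `a` -/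
noncomputable def fib {n t : ℕ} (f : PFun n t) (a : Fin t) : ℕ :=
  (Finset.univ.filter fun x => f x = some a).card

/-- size of the domain -/
noncomputable def dom {n t : ℕ} (f : PFun n t) : ℕ :=
  (Finset.univ.filter fun x => f x ≠ none).card

lemma sum_fib {n t : ℕ} (f : PFun n t) : ∑ a, fib f a = dom f := by
  unfold fib dom
  rw [← Finset.card_biUnion]
  · congr 1
    ext x
    simp only [Finset.mem_biUnion, Finset.mem_univ, Finset.mem_filter, true_and]
    rw [Option.ne_none_iff_exists']
  · intro a _ b _ hab
    rw [Function.onFun, Finset.disjoint_left]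
    intro x hx hy
    rw [Finset.mem_filter] at hx hy
    apply hab
    have := hx.2.symm.trans hy.2
    exact Option.some.inj this

/-- restriction to the first `n` elements -/
def res {n t : ℕ} (f : PFun (n + 1) t) : PFun n t := fun x => f x.castSucc

lemma res_mono {n t : ℕ} (f : PFun (n + 1) t) (hf : Mono f) : Mono (res f) := by
  intro x y a b hxy ha hb
  exact hf x.castSucc y.castSucc a b (by simpa using hxy) ha hb

lemma fib_succ {n t : ℕ} (f : PFun (n + 1) t) (a : Fin t) :
    fib f a = fib (res f) a + if f (Fin.last n) = some a then 1 else 0 := by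
  unfold fib
  rw [Finset.card_filter, Finset.card_filter, Fin.sum_univ_castSucc]
  rfl

lemma dom_succ {n t : ℕ} (f : PFun (n + 1) t) :
    dom f = dom (res f) + if f (Fin.last n) ≠ none then 1 else 0 := by
  unfold dom
  rw [Finset.card_filter, Finset.card_filter, Fin.sum_univ_castSucc]
  rfl

/-- the weighted number of separated pairs -/
noncomputable def S {n t : ℕ} (f : PFun n t) : ℝ :=
  ∑ x : Fin n, ∑ y : Fin n, if x < y ∧ Sep f x y then 1 / (((y : ℕ) : ℝ) - (x : ℕ)) else 0

/-- the potential -/
noncomputable def Psi {n t : ℕ} (f : PFun n t) : ℝ :=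
  dom f * Hn (dom f) - ∑ a, fib f a * Hn (fib f a)

lemma S_succ {n t : ℕ} (f : PFun (n + 1) t) :
    S f = S (res f) + ∑ x : Fin n, if Sep f x.castSucc (Fin.last n) then
      1 / ((n : ℝ) - (x : ℕ)) else 0 := by
  unfold S
  rw [Fin.sum_univ_castSucc]
  have h0 : ∑ y : Fin (n + 1), (if Fin.last n < y ∧ Sep f (Fin.last n) y then
      1 / (((y : ℕ) : ℝ) - ((Fin.last n : Fin (n + 1)) : ℕ)) else 0) = 0 := by
    refine Finset.sum_eq_zero fun y _ => ?_
    rw [if_neg]
    rintro ⟨h, _⟩
    exact absurd h (not_lt.2 (Fin.le_last y))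
  rw [h0, add_zero, ← Finset.sum_add_distrib]
  refine Finset.sum_congr rfl fun x _ => ?_
  rw [Fin.sum_univ_castSucc]
  congr 1
  · have : x.castSucc < Fin.last n := Fin.castSucc_lt_last x
    simp [this]

lemma S_le_Psi {t : ℕ} : ∀ {n : ℕ} (f : PFun n t), Mono f → S f ≤ Psi f := by
  intro n
  induction n with
  | zero =>
    intro f _
    have h1 : S f = 0 := by simp [S]
    have h2 : ∀ a, fib f a = 0 := by intro a; simp [fib]
    have h3 : dom f = 0 := by simp [dom]
    rw [h1, Psi, h3]
    simp [h2]
  | succ n ih =>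
    intro f hf
    rw [S_succ]
    have h1 := ih (res f) (res_mono f hf)
    rcases hlast : f (Fin.last n) with _ | j
    · -- the last element is undefined
      have h2 : ∑ x : Fin n, (if Sep f x.castSucc (Fin.last n) then
          1 / ((n : ℝ) - (x : ℕ)) else 0) = 0 := by
        refine Finset.sum_eq_zero fun x _ => ?_
        rw [if_neg]
        rintro ⟨a, b, _, hb, _⟩
        rw [hlast] at hb
        simp at hb
      have h3 : Psi f = Psi (res f) := by
        unfold Psi
        rw [dom_succ]
        simp only [fib_succ, hlast]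
        simp
      rw [h2, h3]
      linarith
    · -- the last element has value j
      set N := dom (res f) with hN
      set m := fib (res f) j with hm
      have hdomf : dom f = N + 1 := by rw [dom_succ, hlast]; simp [hN]
      have hPsi : Psi f = Psi (res f) + (Hn N - Hn m) := by
        unfold Psi
        rw [hdomf, ← hN, mul_Hn_succ]
        have h2 : ∑ a, ((fib f a : ℕ) : ℝ) * Hn (fib f a)
            = ∑ a, ((fib (res f) a : ℕ) : ℝ) * Hn (fib (res f) a) + (Hn m + 1) := by
          rw [← Finset.add_sum_erase _ _ (Finset.mem_univ j),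
            ← Finset.add_sum_erase Finset.univ
              (fun a => ((fib (res f) a : ℕ) : ℝ) * Hn (fib (res f) a)) (Finset.mem_univ j)]
          have h3 : fib f j = m + 1 := by rw [fib_succ, hlast]; simp [hm]
          rw [h3, mul_Hn_succ, ← hm]
          have h4 : ∑ a ∈ Finset.univ.erase j, ((fib f a : ℕ) : ℝ) * Hn (fib f a)
              = ∑ a ∈ Finset.univ.erase j, ((fib (res f) a : ℕ) : ℝ) * Hn (fib (res f) a) := by
            refine Finset.sum_congr rfl fun a ha => ?_
            have : fib f a = fib (res f) a := by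
              rw [fib_succ, hlast, if_neg]
              · simp
              · intro h
                exact (Finset.ne_of_mem_erase ha) (Option.some.inj h).symm
            rw [this]
          rw [h4]
          ring
        rw [h2]
        ring
      -- the new pairs
      set T : Finset (Fin n) := Finset.univ.filter fun x => Sep f x.castSucc (Fin.last n) with hT
      have hsum : ∑ x : Fin n, (if Sep f x.castSucc (Fin.last n) then
          1 / ((n : ℝ) - (x : ℕ)) else 0) = ∑ x ∈ T, 1 / ((n : ℝ) - (x : ℕ)) := by
        rw [hT, Finset.sum_filter]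
      have hTmem : ∀ x, x ∈ T ↔ ∃ a, res f x = some a ∧ a < j := by
        intro x
        rw [hT, Finset.mem_filter]
        constructor
        · rintro ⟨_, a, b, ha, hb, hab⟩
          rw [hlast] at hb
          have : j = b := Option.some.inj hb
          exact ⟨a, ha, this ▸ hab⟩
        · rintro ⟨a, ha, hab⟩
          exact ⟨Finset.mem_univ _, a, j, ha, hlast, hab⟩
      have hle : ∀ x a, res f x = some a → a ≤ j := by
        intro x a ha
        exact hf x.castSucc (Fin.last n) a j (Fin.le_last _) ha hlast
      have hcard : N = m + T.card := by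
        rw [hN, hm]
        unfold dom fib
        rw [← Finset.card_union_of_disjoint]
        · congr 1
          ext x
          simp only [Finset.mem_union, Finset.mem_filter, Finset.mem_univ, true_and, hTmem]
          rw [Option.ne_none_iff_exists']
          constructor
          · rintro ⟨a, ha⟩
            rcases lt_or_eq_of_le (hle x a ha) with h | h
            · exact Or.inr ⟨a, ha, h⟩
            · exact Or.inl (h ▸ ha)
          · rintro (h | ⟨a, ha, _⟩)
            · exact ⟨j, h⟩
            · exact ⟨a, ha⟩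
        · rw [Finset.disjoint_left]
          intro x hx hy
          rw [Finset.mem_filter] at hx
          obtain ⟨a, ha, haj⟩ := (hTmem x).1 hy
          rw [hx.2] at ha
          exact absurd (Option.some.inj ha) (ne_of_gt haj)
      have hfar : ∀ x ∈ T, m < n - (x : ℕ) := by
        intro x hx
        obtain ⟨a, ha, haj⟩ := (hTmem x).1 hx
        have hsub : (Finset.univ.filter fun y => res f y = some j) ⊆ Finset.Ioi x := by
          intro y hy
          rw [Finset.mem_filter] at hy
          rw [Finset.mem_Ioi]
          by_contra hcon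
          have := res_mono f hf y x j a (not_lt.1 hcon) hy.2 ha
          exact absurd haj (not_lt.2 this)
        have h5 := Finset.card_le_card hsub
        rw [Fin.card_Ioi] at h5
        have : m ≤ n - 1 - (x : ℕ) := h5
        have := x.2
        omega
      have hkey : ∑ x ∈ T, 1 / ((n : ℝ) - (x : ℕ)) ≤ Hn N - Hn m := by
        have hinj : Set.InjOn (fun x : Fin n => n - (x : ℕ)) T := by
          intro x _ y _ hxy
          have hx := x.2
          have hy := y.2
          simp only at hxy
          apply Fin.ext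
          omega
        have h5 := recip_sum_le m (T.image fun x : Fin n => n - (x : ℕ)) (by
          intro z hz
          obtain ⟨x, hx, rfl⟩ := Finset.mem_image.1 hz
          exact hfar x hx)
        rw [Finset.card_image_of_injOn hinj, ← hcard, Finset.sum_image hinj] at h5
        refine le_trans (le_of_eq ?_) h5
        refine Finset.sum_congr rfl fun x _ => ?_
        rw [Nat.cast_sub x.2.le]
      rw [hsum, hPsi]
      linarith

lemma Psi_le {n t : ℕ} (ht : 1 ≤ t) (f : PFun n t) : Psi f ≤ dom f * Real.log t := by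
  unfold Psi
  have ht0 : (0 : ℝ) < t := by exact_mod_cast ht
  set N := dom f with hN
  have hsum : ∑ a, ((fib f a : ℕ) : ℝ) = N := by
    rw [hN, ← sum_fib f]
    push_cast
    rfl
  have h1 : (N : ℝ) * Hn N = ∑ a, ((fib f a : ℕ) : ℝ) * Hn N := by
    rw [← Finset.sum_mul, hsum]
  rw [h1, ← Finset.sum_sub_distrib]
  have h2 : ∀ a : Fin t, ((fib f a : ℕ) : ℝ) * Hn N - (fib f a : ℕ) * Hn (fib f a)
      ≤ (fib f a : ℕ) * Real.log t + ((N : ℝ) / t - (fib f a : ℕ)) := by
    intro a
    have hle : fib f a ≤ N := by
      rw [hN, ← sum_fib f]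
      exact Finset.single_le_sum (f := fun a => fib f a) (fun _ _ => Nat.zero_le _)
        (Finset.mem_univ a)
    rcases Nat.eq_zero_or_pos (fib f a) with h0 | hpos
    · rw [h0]
      simp only [Nat.cast_zero, zero_mul, sub_zero]
      positivity
    · have h3 := Hn_sub_le_log hpos hle
      have hk0 : (0 : ℝ) < (fib f a : ℕ) := by exact_mod_cast hpos
      have hN0 : (0 : ℝ) < N := by exact_mod_cast (lt_of_lt_of_le hpos hle)
      have h4 := Real.log_le_sub_one_of_pos (x := (N : ℝ) / (t * (fib f a : ℕ))) (by positivity)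
      rw [Real.log_div (by positivity) (by positivity), Real.log_mul (by positivity)
        (by positivity)] at h4
      have h5 : ((fib f a : ℕ) : ℝ) * (Hn N - Hn (fib f a)) ≤ (fib f a : ℕ) *
          (Real.log t + ((N : ℝ) / (t * (fib f a : ℕ)) - 1)) := by
        apply mul_le_mul_of_nonneg_left _ hk0.le
        linarith
      have h6 : ((fib f a : ℕ) : ℝ) * (Real.log t + ((N : ℝ) / (t * (fib f a : ℕ)) - 1))
          = (fib f a : ℕ) * Real.log t + ((N : ℝ) / t - (fib f a : ℕ)) := by
        field_simp
      rw [h6] at h5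
      linarith
  refine (Finset.sum_le_sum fun a _ => h2 a).trans ?_
  rw [Finset.sum_add_distrib, ← Finset.sum_mul, hsum, Finset.sum_sub_distrib, hsum,
    Finset.sum_const, Finset.card_univ, Fintype.card_fin, nsmul_eq_mul]
  have : (t : ℝ) * (N / t) - N = 0 := by
    field_simp
    ring
  linarith

/-- total weight of all pairs -/
lemma total_pairs (n : ℕ) :
    ∑ x : Fin n, ∑ y : Fin n, (if x < y then 1 / (((y : ℕ) : ℝ) - (x : ℕ)) else 0)
      = n * Hn n - n := by
  induction n with
  | zero => simp
  | succ n ih =>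
    rw [Fin.sum_univ_castSucc]
    have h0 : ∑ y : Fin (n + 1), (if Fin.last n < y then
        1 / (((y : ℕ) : ℝ) - ((Fin.last n : Fin (n + 1)) : ℕ)) else 0) = 0 := by
      refine Finset.sum_eq_zero fun y _ => ?_
      rw [if_neg]
      exact not_lt.2 (Fin.le_last y)
    rw [h0, add_zero]
    have h1 : ∀ x : Fin n, ∑ y : Fin (n + 1), (if x.castSucc < y then
        1 / (((y : ℕ) : ℝ) - ((x.castSucc : Fin (n + 1)) : ℕ)) else 0)
        = ∑ y : Fin n, (if x < y then 1 / (((y : ℕ) : ℝ) - (x : ℕ)) else 0)
          + 1 / ((n : ℝ) - (x : ℕ)) := by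
      intro x
      rw [Fin.sum_univ_castSucc]
      have : x.castSucc < Fin.last n := Fin.castSucc_lt_last x
      simp [this]
    rw [Finset.sum_congr rfl fun x _ => h1 x, Finset.sum_add_distrib, ih]
    have h2 : ∑ x : Fin n, 1 / ((n : ℝ) - (x : ℕ)) = Hn n := by
      rw [Fin.sum_univ_eq_sum_range (fun x => 1 / ((n : ℝ) - x)) n, Hn,
        ← Finset.sum_range_reflect]
      refine Finset.sum_congr rfl fun x hx => ?_
      rw [Finset.mem_range] at hx
      have : n - 1 - x + 1 + x = n := by omega
      have h3 : ((n : ℕ) : ℝ) = ((n - 1 - x : ℕ) : ℝ) + 1 + x := by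
        rw [← this]
        push_cast
        have : n - 1 - x + 1 + x - 1 - x = n - 1 - x := by omega
        rw [this]
      rw [h3]
      congr 1
      have h4 : ((n - 1 - x : ℕ) : ℝ) + 1 + x - ((n - 1 - x : ℕ) : ℝ) = 1 + x := by ring
      ring
    rw [h2, mul_Hn_succ]
    push_cast
    ring

/-- first form of the lower bound -/
lemma ach_lower {n t : ℕ} (hn : 1 ≤ n) (ht : 2 ≤ t) (M : ℝ) (hM : Ach n t M) :
    Real.log n - 1 ≤ M * Real.log t := by
  have hlt : 0 < Real.log t := Real.log_pos (by exact_mod_cast ht)
  have key := weak_duality M hM (fun _ => Real.log t)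
    (fun x y => if x < y then 1 / (((y : ℕ) : ℝ) - (x : ℕ)) else 0) (fun _ => hlt.le) ?_ ?_
  · have h1 : ∑ x : Fin n, ∑ y : Fin n, (if x < y then
        (if x < y then 1 / (((y : ℕ) : ℝ) - (x : ℕ)) else 0) else 0) = n * Hn n - n := by
      rw [← total_pairs]
      refine Finset.sum_congr rfl fun x _ => Finset.sum_congr rfl fun y _ => ?_
      split_ifs <;> rfl
    rw [h1] at key
    simp only [Finset.sum_const, Finset.card_univ, Fintype.card_fin, nsmul_eq_mul] at key
    have hn0 : (0 : ℝ) < n := by exact_mod_cast hn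
    have h2 := log_le_Hn n hn
    have h3 : (n : ℝ) * (Hn n - 1) ≤ n * (M * Real.log t) := by linarith
    have h4 := le_of_mul_le_mul_left h3 hn0
    linarith
  · intro x y
    split_ifs with h
    · have : ((x : ℕ) : ℝ) < (y : ℕ) := by exact_mod_cast h
      have : 0 < ((y : ℕ) : ℝ) - (x : ℕ) := by linarith
      positivity
    · exact le_rfl
  · intro f hf
    have h1 : ∑ x : Fin n, ∑ y : Fin n, (if x < y ∧ Sep f x y then
        (if x < y then 1 / (((y : ℕ) : ℝ) - (x : ℕ)) else 0) else 0) = S f := by
      unfold S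
      refine Finset.sum_congr rfl fun x _ => Finset.sum_congr rfl fun y _ => ?_
      by_cases h : x < y <;> simp [h]
    rw [h1]
    refine (S_le_Psi f hf).trans ((Psi_le (by omega) f).trans (le_of_eq ?_))
    have : ∑ x : Fin n, (if f x = none then 0 else Real.log t)
        = ∑ x : Fin n, (if f x ≠ none then Real.log t else 0) := by
      refine Finset.sum_congr rfl fun x _ => ?_
      by_cases h : f x = none <;> simp [h]
    rw [this, ← Finset.sum_filter, Finset.sum_const, nsmul_eq_mul]
    rfl

lemma ach_one (t : ℕ) : Ach 1 t 0 := by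
  refine ⟨fun _ => 0, ⟨fun _ => le_rfl, fun _ _ => rfl, fun x y hxy => ?_⟩, fun x => ?_⟩
  · have : x = y := Subsingleton.elim x y
    exact absurd hxy (by rw [this]; exact lt_irrefl y)
  · simp [localWeight]

lemma ach_pow {n t : ℕ} {M : ℝ} (h : Ach n t M) (k : ℕ) : Ach (n ^ k) t (k * M) := by
  induction k with
  | zero => simpa using ach_one t
  | succ k ih =>
    have := ach_mul ih h
    rw [← pow_succ] at this
    convert this using 1
    push_cast
    ring

/-- the lower bound `log_t n` -/
lemma ach_logb {n t : ℕ} (hn : 1 ≤ n) (ht : 2 ≤ t) (M : ℝ) (hM : Ach n t M) :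
    Real.logb t n ≤ M := by
  have hlt : 0 < Real.log t := Real.log_pos (by exact_mod_cast ht)
  have hk : ∀ k : ℕ, (k : ℝ) * (Real.log n - M * Real.log t) ≤ 1 := by
    intro k
    have h1 := ach_lower (Nat.one_le_pow k n hn) ht _ (ach_pow hM k)
    push_cast at h1
    rw [Real.log_pow] at h1
    linarith
  have h0 : Real.log n - M * Real.log t ≤ 0 := by
    by_contra hcon
    push Not at hcon
    obtain ⟨k, hk'⟩ := exists_nat_gt (1 / (Real.log n - M * Real.log t))
    have h2 := hk k
    rw [div_lt_iff₀ hcon] at hk'
    linarith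
  rw [Real.logb, div_le_iff₀ hlt]
  linarith

lemma ach_base (t : ℕ) : Ach t t 1 := by
  refine ach_of_family (ι := Unit) (fun _ x => some x) (fun _ => 1) 1 (fun _ => zero_le_one) ?_ ?_ ?_
  · intro _ h
    exfalso
    apply h
    intro x y a b hxy ha hb
    rw [← Option.some.inj ha, ← Option.some.inj hb]
    exact hxy
  · intro x y hxy
    have : Sep (fun x : Fin t => some x) x y := ⟨x, y, rfl, rfl, hxy⟩
    simp [this]
  · intro x
    simp

lemma ach_big (n t : ℕ) (ht : 2 ≤ t) : ∃ M, Ach n t M := by
  let F : Fin n × Fin n → PFun n t := fun p z =>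
    if z = p.1 then some ⟨0, by omega⟩ else if z = p.2 then some ⟨1, by omega⟩ else none
  let w : Fin n × Fin n → ℝ := fun p => if p.1 < p.2 then 1 else 0
  have hw0 : ∀ p, 0 ≤ w p := by
    intro p
    simp only [w]
    split_ifs <;> norm_num
  refine ⟨∑ p, w p, ach_of_family F w _ hw0 ?_ ?_ ?_⟩
  · intro p hp
    by_contra hw
    apply hp
    have hlt : p.1 < p.2 := by
      by_contra hcon
      exact hw (by simp [w, hcon])
    intro x y a b hxy ha hb
    simp only [F] at ha hb
    by_cases hy1 : y = p.1
    · rw [if_pos hy1] at hb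
      by_cases hx1 : x = p.1
      · rw [if_pos hx1] at ha
        exact le_of_eq ((Option.some.inj ha).symm.trans (Option.some.inj hb))
      · rw [if_neg hx1] at ha
        by_cases hx2 : x = p.2
        · exfalso
          rw [hx2, hy1] at hxy
          exact absurd hlt (not_lt.2 hxy)
        · rw [if_neg hx2] at ha
          simp at ha
    · rw [if_neg hy1] at hb
      by_cases hy2 : y = p.2
      · rw [if_pos hy2] at hb
        have hb' := Option.some.inj hb
        by_cases hx1 : x = p.1
        · rw [if_pos hx1] at ha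
          have ha' := Option.some.inj ha
          rw [← ha', ← hb', Fin.le_def]
          simp
        · rw [if_neg hx1] at ha
          by_cases hx2 : x = p.2
          · rw [if_pos hx2] at ha
            exact le_of_eq ((Option.some.inj ha).symm.trans hb')
          · rw [if_neg hx2] at ha
            simp at ha
      · rw [if_neg hy2] at hb
        simp at hb
  · intro x y hxy
    have h1 : Sep (F (x, y)) x y := by
      refine ⟨⟨0, by omega⟩, ⟨1, by omega⟩, by simp [F], by simp [F, hxy.ne'], ?_⟩
      simp [Fin.lt_def]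
    have h2 : (1 : ℝ) = if Sep (F (x, y)) x y then w (x, y) else 0 := by
      rw [if_pos h1]
      simp [w, hxy]
    rw [h2]
    exact Finset.single_le_sum (f := fun p => if Sep (F p) x y then w p else 0)
      (fun p _ => by split_ifs; exact hw0 p; exact le_rfl) (Finset.mem_univ (x, y))
  · intro x
    refine Finset.sum_le_sum fun p _ => ?_
    split_ifs
    · exact hw0 p
    · exact le_rfl

lemma ach_nonneg {n t : ℕ} (hn : 1 ≤ n) (M : ℝ) (h : Ach n t M) : 0 ≤ M := by
  obtain ⟨w, ⟨hw0, _, _⟩, hl⟩ := h
  refine le_trans ?_ (hl ⟨0, hn⟩)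
  refine Finset.sum_nonneg fun f _ => ?_
  split_ifs
  · exact le_rfl
  · exact hw0 f

end Pool.Agent.Lib.MP_5b7fe5_co
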