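import Mathlib
import Pool.Agent.Lib.MP_5b7fe5_co.Basic

set_option autoImplicit false
set_option linter.unusedSectionVars false

open Classical

namespace Pool.Agent.Lib.MP_5b7fe5_co

lemma pow_unique {i j β : ℕ} (h1 : β ≤ 2 ^ i) (h2 : 2 ^ i < 2 * β) (h3 : β ≤ 2 ^ j)
    (h4 : 2 ^ j < 2 * β) : i = j := by
  by_contra hne
  rcases Nat.lt_or_gt_of_ne hne with h | h
  · have : 2 ^ (i + 1) ≤ 2 ^ j := Nat.pow_le_pow_right (by norm_num) h
    rw [pow_succ] at this
    omega
  · have : 2 ^ (j + 1) ≤ 2 ^ i := Nat.pow_le_pow_right (by norm_num) h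
    rw [pow_succ] at this
    omega

/-- between two separated finite sets of integers there are at most `|A| + |B| - 1` pairs whose
difference is a power of two -/
lemma pow_two_pairs (A B : Finset ℕ) (hAB : ∀ a ∈ A, ∀ b ∈ B, a < b) (hA : A.Nonempty) :
    ((A ×ˢ B).filter fun p => ∃ i, p.2 - p.1 = 2 ^ i).card + 1 ≤ A.card + B.card := by
  set a0 := A.max' hA with ha0
  have ha0A : a0 ∈ A := A.max'_mem hA
  have hmax : ∀ a ∈ A, a ≤ a0 := fun a ha => A.le_max' a ha
  set E := (A ×ˢ B).filter fun p => ∃ i, p.2 - p.1 = 2 ^ i with hE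
  have h1 : (E.filter fun p => a0 - p.1 < p.2 - a0).card ≤ B.card := by
    apply Finset.card_le_card_of_injOn (fun p => p.2)
    · intro p hp
      rw [Finset.mem_coe, Finset.mem_filter, hE, Finset.mem_filter, Finset.mem_product] at hp
      exact hp.1.1.2
    · rintro ⟨a, b⟩ hp ⟨a', b'⟩ hp' hbb
      rw [Finset.mem_coe, Finset.mem_filter, hE, Finset.mem_filter, Finset.mem_product] at hp hp'
      simp only at hp hp' hbb
      obtain ⟨⟨⟨haA, hbB⟩, i, hi⟩, hlt⟩ := hp
      obtain ⟨⟨⟨haA', hbB'⟩, j, hj⟩, hlt'⟩ := hp'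
      subst hbb
      have e1 := hmax a haA
      have e2 := hmax a' haA'
      have e3 := hAB a0 ha0A b hbB
      have hij : i = j := by
        apply pow_unique (β := b - a0)
        · rw [← hi]; omega
        · rw [← hi]; omega
        · rw [← hj]; omega
        · rw [← hj]; omega
      subst hij
      have : a = a' := by omega
      rw [this]
  have h2 : (E.filter fun p => ¬ a0 - p.1 < p.2 - a0).card + 1 ≤ A.card := by
    have h3 : (E.filter fun p => ¬ a0 - p.1 < p.2 - a0).card ≤ (A.erase a0).card := by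
      apply Finset.card_le_card_of_injOn (fun p => p.1)
      · rintro ⟨a, b⟩ hp
        rw [Finset.mem_coe, Finset.mem_filter, hE, Finset.mem_filter, Finset.mem_product] at hp
        obtain ⟨⟨⟨haA, hbB⟩, i, hi⟩, hlt⟩ := hp
        simp only at haA hbB hlt
        rw [Finset.mem_coe, Finset.mem_erase]
        refine ⟨?_, haA⟩
        rintro rfl
        have e3 := hAB a0 ha0A b hbB
        omega
      · rintro ⟨a, b⟩ hp ⟨a', b'⟩ hp' haa
        rw [Finset.mem_coe, Finset.mem_filter, hE, Finset.mem_filter, Finset.mem_product] at hp hp'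
        simp only at hp hp' haa
        obtain ⟨⟨⟨haA, hbB⟩, i, hi⟩, hlt⟩ := hp
        obtain ⟨⟨⟨haA', hbB'⟩, j, hj⟩, hlt'⟩ := hp'
        subst haa
        have e1 := hmax a haA
        have e3 := hAB a0 ha0A b hbB
        have e4 := hAB a0 ha0A b' hbB'
        have hij : i = j := by
          apply pow_unique (β := a0 - a + 1)
          · rw [← hi]; omega
          · rw [← hi]; omega
          · rw [← hj]; omega
          · rw [← hj]; omega
        subst hij
        have : b = b' := by omega
        rw [this]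
    have h4 : (A.erase a0).card + 1 = A.card := Finset.card_erase_add_one ha0A
    omega
  have h3 : (E.filter fun p => a0 - p.1 < p.2 - a0).card
      + (E.filter fun p => ¬ a0 - p.1 < p.2 - a0).card = E.card :=
    Finset.card_filter_add_card_filter_not _
  omega

lemma sum_ite_card {n : ℕ} (P : Fin n → Fin n → Prop) :
    ∑ x : Fin n, ∑ y : Fin n, (if P x y then (1 : ℝ) else 0)
      = ((Finset.univ : Finset (Fin n × Fin n)).filter fun p => P p.1 p.2).card := by
  rw [Finset.card_filter]
  push_cast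
  rw [Fintype.sum_prod_type]

/-- the dual weights for `t = 2` -/
lemma dual_two {n : ℕ} (O : Fin n → Prop) (ρ : Fin n → ℕ)
    (hρ : ∀ x y, O x → O y → x < y → ρ x < ρ y)
    (hO : ∀ x y : Fin n, (y : ℕ) = x + 1 → O x ∨ O y) (M : ℝ) (hM : Ach n 2 M) :
    (((Finset.univ : Finset (Fin n × Fin n)).filter fun p => (p.2 : ℕ) = p.1 + 1).card : ℝ)
      + ((Finset.univ : Finset (Fin n × Fin n)).filter fun p =>
          p.1 < p.2 ∧ O p.1 ∧ O p.2 ∧ ∃ i, ρ p.2 - ρ p.1 = 2 ^ i).card
      ≤ M * ((Finset.univ : Finset (Fin n)).filter fun x => O x).card := by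
  have key := weak_duality M hM (fun x => if O x then 1 else 0)
    (fun x y => (if (y : ℕ) = x + 1 then 1 else 0)
      + (if O x ∧ O y ∧ ∃ i, ρ y - ρ x = 2 ^ i then 1 else 0)) ?_ ?_ ?_
  · have e1 : ∑ x : Fin n, ∑ y : Fin n, (if x < y then ((if (y : ℕ) = x + 1 then (1 : ℝ) else 0)
        + (if O x ∧ O y ∧ ∃ i, ρ y - ρ x = 2 ^ i then 1 else 0)) else 0)
        = (((Finset.univ : Finset (Fin n × Fin n)).filter fun p => (p.2 : ℕ) = p.1 + 1).card : ℝ)
      + ((Finset.univ : Finset (Fin n × Fin n)).filter fun p =>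
          p.1 < p.2 ∧ O p.1 ∧ O p.2 ∧ ∃ i, ρ p.2 - ρ p.1 = 2 ^ i).card := by
      have c1 : (((Finset.univ : Finset (Fin n × Fin n)).filter fun p => (p.2 : ℕ) = p.1 + 1).card : ℝ)
          = ∑ x : Fin n, ∑ y : Fin n, (if (y : ℕ) = x + 1 then (1 : ℝ) else 0) := by
        rw [Finset.card_filter]
        push_cast
        rw [Fintype.sum_prod_type]
      have c2 : (((Finset.univ : Finset (Fin n × Fin n)).filter fun p =>
          p.1 < p.2 ∧ O p.1 ∧ O p.2 ∧ ∃ i, ρ p.2 - ρ p.1 = 2 ^ i).card : ℝ)
          = ∑ x : Fin n, ∑ y : Fin n,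
            (if x < y ∧ O x ∧ O y ∧ ∃ i, ρ y - ρ x = 2 ^ i then (1 : ℝ) else 0) := by
        rw [Finset.card_filter]
        push_cast
        rw [Fintype.sum_prod_type]
      rw [c1, c2, ← Finset.sum_add_distrib]
      refine Finset.sum_congr rfl fun x _ => ?_
      rw [← Finset.sum_add_distrib]
      refine Finset.sum_congr rfl fun y _ => ?_
      by_cases hxy : x < y
      · simp [hxy]
      · have : ¬ (y : ℕ) = x + 1 := by
          intro h
          apply hxy
          rw [Fin.lt_def]
          omega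
        simp [hxy, this]
    rw [e1] at key
    refine key.trans (le_of_eq ?_)
    rw [← Finset.sum_filter, Finset.sum_const, nsmul_eq_mul, mul_one]
  · intro x
    split_ifs <;> norm_num
  · intro x y
    split_ifs <;> norm_num
  · intro f hf
    set A : Finset (Fin n) := Finset.univ.filter fun x => f x = some 0 with hA
    set B : Finset (Fin n) := Finset.univ.filter fun x => f x = some 1 with hB
    have hAB : ∀ a ∈ A, ∀ b ∈ B, a < b := by
      intro a ha b hb
      rw [hA, Finset.mem_filter] at ha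
      rw [hB, Finset.mem_filter] at hb
      by_contra hcon
      have := hf b a 1 0 (not_lt.1 hcon) hb.2 ha.2
      exact absurd this (by decide)
    have hSep : ∀ x y, Sep f x y ↔ x ∈ A ∧ y ∈ B := by
      intro x y
      rw [hA, hB, Finset.mem_filter, Finset.mem_filter]
      constructor
      · rintro ⟨a, b, ha, hb, hab⟩
        have h0 : a = 0 := by
          rw [Fin.lt_def] at hab
          apply Fin.ext
          have := b.2
          have h00 : ((0 : Fin 2) : ℕ) = 0 := rfl
          omega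
        have h1 : b = 1 := by
          rw [Fin.lt_def] at hab
          apply Fin.ext
          have := b.2
          have h00 : ((1 : Fin 2) : ℕ) = 1 := rfl
          omega
        exact ⟨⟨Finset.mem_univ _, h0 ▸ ha⟩, ⟨Finset.mem_univ _, h1 ▸ hb⟩⟩
      · rintro ⟨⟨_, ha⟩, ⟨_, hb⟩⟩
        exact ⟨0, 1, ha, hb, by decide⟩
    have hdis : Disjoint A B := by
      rw [Finset.disjoint_left]
      intro x hx hy
      exact absurd (hAB x hx x hy) (lt_irrefl x)
    have hdom : ∑ x : Fin n, (if f x = none then (0 : ℝ) else (if O x then 1 else 0))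
        = ((A.filter fun x => O x).card : ℝ) + (B.filter fun x => O x).card := by
      rw [← Nat.cast_add, ← Finset.card_union_of_disjoint
        (Finset.disjoint_filter_filter hdis), ← Finset.filter_union]
      have : A ∪ B = Finset.univ.filter fun x => f x ≠ none := by
        ext x
        rw [Finset.mem_union, hA, hB, Finset.mem_filter, Finset.mem_filter, Finset.mem_filter]
        constructor
        · rintro (⟨_, h⟩ | ⟨_, h⟩) <;> exact ⟨Finset.mem_univ _, by rw [h]; simp⟩
        · rintro ⟨_, h⟩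
          obtain ⟨a, ha⟩ := Option.ne_none_iff_exists'.1 h
          rw [ha]
          fin_cases a
          · left; exact ⟨Finset.mem_univ _, rfl⟩
          · right; exact ⟨Finset.mem_univ _, rfl⟩
      rw [this, Finset.filter_filter, Finset.card_filter]
      push_cast
      refine Finset.sum_congr rfl fun x _ => ?_
      by_cases h1 : f x = none <;> by_cases h2 : O x <;> simp [h1, h2]
    rw [hdom]
    have e1 : ∑ x : Fin n, ∑ y : Fin n, (if x < y ∧ Sep f x y then
        ((if (y : ℕ) = x + 1 then (1 : ℝ) else 0)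
        + (if O x ∧ O y ∧ ∃ i, ρ y - ρ x = 2 ^ i then 1 else 0)) else 0)
        = (((A ×ˢ B).filter fun p => (p.2 : ℕ) = p.1 + 1).card : ℝ)
      + (((A.filter fun x => O x) ×ˢ (B.filter fun x => O x)).filter fun p =>
          ∃ i, ρ p.2 - ρ p.1 = 2 ^ i).card := by
      have e2 : ((A ×ˢ B).filter fun p => (p.2 : ℕ) = p.1 + 1)
          = (Finset.univ : Finset (Fin n × Fin n)).filter fun p =>
            (p.1 ∈ A ∧ p.2 ∈ B) ∧ (p.2 : ℕ) = p.1 + 1 := by
        ext p
        simp only [Finset.mem_filter, Finset.mem_product, Finset.mem_univ, true_and]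
      have e3 : (((A.filter fun x => O x) ×ˢ (B.filter fun x => O x)).filter fun p =>
          ∃ i, ρ p.2 - ρ p.1 = 2 ^ i)
          = (Finset.univ : Finset (Fin n × Fin n)).filter fun p =>
            (p.1 ∈ A ∧ p.2 ∈ B) ∧ (O p.1 ∧ O p.2 ∧ ∃ i, ρ p.2 - ρ p.1 = 2 ^ i) := by
        ext p
        simp only [Finset.mem_filter, Finset.mem_product, Finset.mem_univ, true_and]
        tauto
      have c1 : (((Finset.univ : Finset (Fin n × Fin n)).filter fun p =>
            (p.1 ∈ A ∧ p.2 ∈ B) ∧ (p.2 : ℕ) = p.1 + 1).card : ℝ)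
          = ∑ x : Fin n, ∑ y : Fin n,
            (if (x ∈ A ∧ y ∈ B) ∧ (y : ℕ) = x + 1 then (1 : ℝ) else 0) := by
        rw [Finset.card_filter]
        push_cast
        rw [Fintype.sum_prod_type]
      have c2 : (((Finset.univ : Finset (Fin n × Fin n)).filter fun p =>
            (p.1 ∈ A ∧ p.2 ∈ B) ∧ (O p.1 ∧ O p.2 ∧ ∃ i, ρ p.2 - ρ p.1 = 2 ^ i)).card : ℝ)
          = ∑ x : Fin n, ∑ y : Fin n,
            (if (x ∈ A ∧ y ∈ B) ∧ (O x ∧ O y ∧ ∃ i, ρ y - ρ x = 2 ^ i) then (1 : ℝ) else 0) := by
        rw [Finset.card_filter]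
        push_cast
        rw [Fintype.sum_prod_type]
      rw [e2, e3, c1, c2, ← Finset.sum_add_distrib]
      refine Finset.sum_congr rfl fun x _ => ?_
      rw [← Finset.sum_add_distrib]
      refine Finset.sum_congr rfl fun y _ => ?_
      by_cases hxy : x ∈ A ∧ y ∈ B
      · have h1 : x < y ∧ Sep f x y := ⟨hAB x hxy.1 y hxy.2, (hSep x y).2 hxy⟩
        rw [if_pos h1]
        simp [hxy]
      · have h1 : ¬ (x < y ∧ Sep f x y) := fun h => hxy ((hSep x y).1 h.2)
        rw [if_neg h1]
        simp [hxy]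
    rw [e1]
    set A' := A.filter fun x => O x with hA'
    set B' := B.filter fun x => O x with hB'
    set E1 := (A ×ˢ B).filter fun p => (p.2 : ℕ) = p.1 + 1 with hE1
    set E2 := (A' ×ˢ B').filter fun p => ∃ i, ρ p.2 - ρ p.1 = 2 ^ i with hE2
    have hE1c : E1.card ≤ 1 := by
      rw [Finset.card_le_one]
      rintro ⟨a, b⟩ hp ⟨a', b'⟩ hp'
      rw [hE1, Finset.mem_filter, Finset.mem_product] at hp hp'
      simp only at hp hp'
      have h1 := hAB a hp.1.1 b' hp'.1.2
      have h2 := hAB a' hp'.1.1 b hp.1.2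
      rw [Fin.lt_def] at h1 h2
      have h3 := hp.2
      have h4 := hp'.2
      have : (a : ℕ) = a' := by omega
      have : a = a' := Fin.ext this
      subst this
      have : b = b' := Fin.ext (by omega)
      rw [this]
    have hE2c : A'.Nonempty → E2.card + 1 ≤ A'.card + B'.card := by
      intro hne
      have hinjA : Set.InjOn ρ A' := by
        intro x hx y hy hxy
        rw [hA', Finset.mem_coe, Finset.mem_filter] at hx hy
        rcases lt_trichotomy x y with h | h | h
        · exact absurd hxy (ne_of_lt (hρ x y hx.2 hy.2 h))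
        · exact h
        · exact absurd hxy (ne_of_gt (hρ y x hy.2 hx.2 h))
      have hinjB : Set.InjOn ρ B' := by
        intro x hx y hy hxy
        rw [hB', Finset.mem_coe, Finset.mem_filter] at hx hy
        rcases lt_trichotomy x y with h | h | h
        · exact absurd hxy (ne_of_lt (hρ x y hx.2 hy.2 h))
        · exact h
        · exact absurd hxy (ne_of_gt (hρ y x hy.2 hx.2 h))
      have h1 := pow_two_pairs (A'.image ρ) (B'.image ρ) (by
        intro a ha b hb
        obtain ⟨x, hx, rfl⟩ := Finset.mem_image.1 ha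
        obtain ⟨y, hy, rfl⟩ := Finset.mem_image.1 hb
        rw [hA', Finset.mem_filter] at hx
        rw [hB', Finset.mem_filter] at hy
        exact hρ x y hx.2 hy.2 (hAB x hx.1 y hy.1)) (hne.image ρ)
      rw [Finset.card_image_of_injOn hinjA, Finset.card_image_of_injOn hinjB] at h1
      refine le_trans (Nat.add_le_add_right ?_ 1) h1
      apply Finset.card_le_card_of_injOn (fun p => (ρ p.1, ρ p.2))
      · intro p hp
        rw [Finset.mem_coe, hE2, Finset.mem_filter, Finset.mem_product] at hp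
        rw [Finset.mem_coe, Finset.mem_filter, Finset.mem_product]
        exact ⟨⟨Finset.mem_image_of_mem ρ hp.1.1, Finset.mem_image_of_mem ρ hp.1.2⟩, hp.2⟩
      · rintro ⟨a, b⟩ hp ⟨a', b'⟩ hp' heq
        rw [Finset.mem_coe, hE2, Finset.mem_filter, Finset.mem_product] at hp hp'
        simp only [Prod.mk.injEq] at heq
        have h2 := hinjA hp.1.1 hp'.1.1 heq.1
        have h3 := hinjB hp.1.2 hp'.1.2 heq.2
        simp only at h2 h3
        rw [h2, h3]
    have hfinal : E1.card + E2.card ≤ A'.card + B'.card := by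
      rcases Finset.eq_empty_or_nonempty A' with hAe | hAne
      · have h1 : E2 = ∅ := by
          rw [hE2, hAe]
          simp
        rw [h1, Finset.card_empty, add_zero, hAe, Finset.card_empty, zero_add]
        -- E1 nonempty forces an element of B'
        rcases Finset.eq_empty_or_nonempty E1 with h2 | ⟨⟨a, b⟩, hp⟩
        · rw [h2]; simp
        · refine hE1c.trans ?_
          rw [hE1, Finset.mem_filter, Finset.mem_product] at hp
          have h3 : O b := by
            rcases hO a b hp.2 with h | h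
            · exfalso
              have : a ∈ A' := by rw [hA', Finset.mem_filter]; exact ⟨hp.1.1, h⟩
              rw [hAe] at this
              exact absurd this (Finset.notMem_empty a)
            · exact h
          exact Finset.card_pos.2 ⟨b, by rw [hB', Finset.mem_filter]; exact ⟨hp.1.2, h3⟩⟩
      · have := hE2c hAne
        omega
    exact_mod_cast hfinal

lemma dual_two' {n : ℕ} (O : Fin n → Prop) (ρ : Fin n → ℕ)
    (hρ : ∀ x y, O x → O y → x < y → ρ x < ρ y)
    (hO : ∀ x y : Fin n, (y : ℕ) = x + 1 → O x ∨ O y) (M : ℝ) (hM : Ach n 2 M)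
    (E1 E2 : Finset (Fin n × Fin n)) (Os : Finset (Fin n))
    (hE1 : ∀ p, p ∈ E1 ↔ (p.2 : ℕ) = p.1 + 1)
    (hE2 : ∀ p, p ∈ E2 ↔ p.1 < p.2 ∧ O p.1 ∧ O p.2 ∧ ∃ i, ρ p.2 - ρ p.1 = 2 ^ i)
    (hOs : ∀ x, x ∈ Os ↔ O x) :
    (E1.card : ℝ) + E2.card ≤ M * Os.card := by
  have h := dual_two O ρ hρ hO M hM
  have e1 : ((Finset.univ : Finset (Fin n × Fin n)).filter fun p => (p.2 : ℕ) = p.1 + 1) = E1 := by
    ext p
    simp [hE1]
  have e2 : ((Finset.univ : Finset (Fin n × Fin n)).filter fun p =>
          p.1 < p.2 ∧ O p.1 ∧ O p.2 ∧ ∃ i, ρ p.2 - ρ p.1 = 2 ^ i) = E2 := by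
    ext p
    simp [hE2]
  have e3 : ((Finset.univ : Finset (Fin n)).filter fun x => O x) = Os := by
    ext p
    simp [hOs]
  rw [e1, e2, e3] at h
  exact h

lemma card_pow_pairs (N k : ℕ) (hk : 2 ^ k ≤ N) :
    (k + 1) * N + 1 ≤ ((Finset.univ : Finset (Fin N × Fin N)).filter fun p =>
          p.1 < p.2 ∧ ∃ i, (p.2 : ℕ) - p.1 = 2 ^ i).card + 2 ^ (k + 1) := by
  have h1 : ((Finset.range (k + 1)).sigma fun i => Finset.range (N - 2 ^ i)).card
      ≤ ((Finset.univ : Finset (Fin N × Fin N)).filter fun p =>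
          p.1 < p.2 ∧ ∃ i, (p.2 : ℕ) - p.1 = 2 ^ i).card := by
    have hN : ∀ q ∈ ((Finset.range (k + 1)).sigma fun i => Finset.range (N - 2 ^ i)),
        q.2 + 2 ^ q.1 < N := by
      intro q hq
      rw [Finset.mem_sigma, Finset.mem_range, Finset.mem_range] at hq
      omega
    apply Finset.card_le_card_of_injOn
      (fun q => if h : q.2 + 2 ^ q.1 < N then
        ((⟨q.2, lt_of_le_of_lt (Nat.le_add_right _ _) h⟩, ⟨q.2 + 2 ^ q.1, h⟩) : Fin N × Fin N)
        else (⟨0, lt_of_lt_of_le (by positivity) hk⟩, ⟨0, lt_of_lt_of_le (by positivity) hk⟩))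
    · intro q hq
      have h := hN q hq
      simp only [h, dif_pos]
      rw [Finset.mem_coe, Finset.mem_filter]
      refine ⟨Finset.mem_univ _, ?_, q.1, ?_⟩
      · rw [Fin.lt_def]
        simp
      · simp
    · intro q hq q' hq' heq
      have h := hN q hq
      have h' := hN q' hq'
      simp only [h, h', dif_pos, Prod.mk.injEq, Fin.mk.injEq] at heq
      obtain ⟨e1, e2⟩ := heq
      have e3 : 2 ^ q.1 = 2 ^ q'.1 := by omega
      have e4 : q.1 = q'.1 := Nat.pow_right_injective (le_refl 2) e3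
      obtain ⟨a, b⟩ := q
      obtain ⟨a', b'⟩ := q'
      simp only at e1 e4
      subst e1 e4
      rfl
  rw [Finset.card_sigma] at h1
  simp only [Finset.card_range] at h1
  have h2 : ∀ j, j ≤ k → (∑ i ∈ Finset.range (j + 1), (N - 2 ^ i)) + 2 ^ (j + 1) = (j + 1) * N + 1 := by
    intro j
    induction j with
    | zero =>
      intro _
      simp only [zero_add, Finset.sum_range_one, pow_zero, pow_one, one_mul]
      have : 1 ≤ N := le_trans (Nat.one_le_two_pow) hk
      omega
    | succ j ih =>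
      intro hj
      have h3 := ih (by omega)
      rw [Finset.sum_range_succ]
      have h4 : 2 ^ (j + 1) ≤ N := le_trans (Nat.pow_le_pow_right (by norm_num) hj) hk
      have h5 : 2 ^ (j + 1 + 1) = 2 * 2 ^ (j + 1) := by rw [pow_succ]; ring
      have h6 : (j + 1 + 1) * N = (j + 1) * N + N := by ring
      rw [h5, h6]
      omega
  have := h2 k le_rfl
  omega

lemma card_succ_pairs (n : ℕ) :
    n ≤ ((Finset.univ : Finset (Fin n × Fin n)).filter fun p => (p.2 : ℕ) = p.1 + 1).card + 1 := by
  rcases Nat.eq_zero_or_pos n with h0 | hpos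
  · omega
  have h1 : (Finset.range (n - 1)).card
      ≤ ((Finset.univ : Finset (Fin n × Fin n)).filter fun p => (p.2 : ℕ) = p.1 + 1).card := by
    apply Finset.card_le_card_of_injOn
      (fun q => if h : q + 1 < n then
        ((⟨q, by omega⟩, ⟨q + 1, h⟩) : Fin n × Fin n) else (⟨0, hpos⟩, ⟨0, hpos⟩))
    · intro q hq
      rw [Finset.mem_coe, Finset.mem_range] at hq
      have h : q + 1 < n := by omega
      simp only [h, dif_pos]
      rw [Finset.mem_coe, Finset.mem_filter]
      exact ⟨Finset.mem_univ _, rfl⟩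
    · intro q hq q' hq' heq
      rw [Finset.mem_coe, Finset.mem_range] at hq hq'
      have h : q + 1 < n := by omega
      have h' : q' + 1 < n := by omega
      simp only [h, h', dif_pos, Prod.mk.injEq, Fin.mk.injEq] at heq
      exact heq.1
  rw [Finset.card_range] at h1
  omega

/-- lower bound with all elements -/
lemma lower_all (n k : ℕ) (hk : 2 ^ k ≤ n) (M : ℝ) (hM : Ach n 2 M) :
    ((k : ℝ) + 2) * n - 2 ^ (k + 1) ≤ M * n := by
  have h2 := card_pow_pairs n k hk
  have h3 := card_succ_pairs n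
  set E1 := (Finset.univ : Finset (Fin n × Fin n)).filter fun p => (p.2 : ℕ) = p.1 + 1 with hE1
  set E2 := (Finset.univ : Finset (Fin n × Fin n)).filter fun p =>
          p.1 < p.2 ∧ ∃ i, (p.2 : ℕ) - p.1 = 2 ^ i with hE2
  have h1 := dual_two' (n := n) (fun _ => True) (fun x => (x : ℕ)) (fun x y _ _ h => h)
    (fun _ _ _ => Or.inl trivial) M hM E1 E2 Finset.univ (by intro p; simp [hE1])
    (by intro p; simp [hE2]) (by intro x; simp)
  rw [Finset.card_univ, Fintype.card_fin] at h1
  have h2' : ((k : ℝ) + 1) * n + 1 ≤ (E2.card : ℝ) + 2 ^ (k + 1) := by exact_mod_cast h2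
  have h3' : (n : ℝ) ≤ (E1.card : ℝ) + 1 := by exact_mod_cast h3
  linarith

/-- lower bound for odd `n` -/
lemma lower_odd (m k : ℕ) (hk : 2 ^ k ≤ m) (M : ℝ) (hM : Ach (2 * m + 1) 2 M) :
    ((k : ℝ) + 3) * m + 1 - 2 ^ (k + 1) ≤ M * m := by
  have h2 := card_pow_pairs m k hk
  have h3 := card_succ_pairs (2 * m + 1)
  set E1 := (Finset.univ : Finset (Fin (2 * m + 1) × Fin (2 * m + 1))).filter
    fun p => (p.2 : ℕ) = p.1 + 1 with hE1
  set E3 := (Finset.univ : Finset (Fin m × Fin m)).filter fun p =>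
          p.1 < p.2 ∧ ∃ i, (p.2 : ℕ) - p.1 = 2 ^ i with hE3
  set E2 := (Finset.univ : Finset (Fin (2 * m + 1) × Fin (2 * m + 1))).filter fun p =>
          p.1 < p.2 ∧ (p.1 : ℕ) % 2 = 1 ∧ (p.2 : ℕ) % 2 = 1 ∧
            ∃ i, (p.2 : ℕ) / 2 - (p.1 : ℕ) / 2 = 2 ^ i with hE2
  set Os : Finset (Fin (2 * m + 1)) := Finset.univ.filter
    (fun x : Fin (2 * m + 1) => (x : ℕ) % 2 = 1) with hOs
  have h1 := dual_two' (n := 2 * m + 1) (fun x => (x : ℕ) % 2 = 1) (fun x => (x : ℕ) / 2)
    (fun x y hx hy h => by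
      rw [Fin.lt_def] at h
      omega)
    (fun x y h => by omega) M hM E1 E2 Os (by intro p; simp [hE1])
    (by intro p; simp [hE2]) (by intro x; simp [hOs])
  have h4 : E3.card ≤ E2.card := by
    apply Finset.card_le_card_of_injOn (fun p => ((⟨2 * p.1 + 1, by omega⟩ : Fin (2 * m + 1)),
      (⟨2 * p.2 + 1, by omega⟩ : Fin (2 * m + 1))))
    · rintro ⟨a, b⟩ hp
      rw [Finset.mem_coe, hE3, Finset.mem_filter] at hp
      obtain ⟨_, hlt, i, hi⟩ := hp
      rw [Finset.mem_coe, hE2, Finset.mem_filter]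
      rw [Fin.lt_def] at hlt
      simp only at hlt hi
      refine ⟨Finset.mem_univ _, ?_, ?_, ?_, i, ?_⟩
      · rw [Fin.lt_def]
        simp only
        omega
      · simp only
        omega
      · simp only
        omega
      · simp only
        rw [← hi]
        omega
    · rintro ⟨a, b⟩ _ ⟨a', b'⟩ _ heq
      simp only [Prod.mk.injEq, Fin.mk.injEq] at heq
      have e1 : a = a' := Fin.ext (by omega)
      have e2 : b = b' := Fin.ext (by omega)
      rw [e1, e2]
  have h5 : Os.card ≤ m := by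
    have : (Finset.range m).card = m := Finset.card_range m
    conv_rhs => rw [← this]
    apply Finset.card_le_card_of_injOn (fun x : Fin (2 * m + 1) => (x : ℕ) / 2)
    · intro x hx
      rw [Finset.mem_coe, hOs, Finset.mem_filter] at hx
      rw [Finset.mem_coe, Finset.mem_range]
      have := x.2
      simp only
      omega
    · intro x hx y hy hxy
      rw [Finset.mem_coe, hOs, Finset.mem_filter] at hx hy
      simp only at hxy
      apply Fin.ext
      omega
  have hM0 : 0 ≤ M := by
    obtain ⟨w, ⟨hw0, _, _⟩, hl⟩ := hM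
    refine le_trans ?_ (hl ⟨0, by omega⟩)
    refine Finset.sum_nonneg fun f _ => ?_
    split_ifs
    · exact le_rfl
    · exact hw0 f
  have h5' : (Os.card : ℝ) ≤ m := by exact_mod_cast h5
  have h6 := mul_le_mul_of_nonneg_left h5' hM0
  have h2' : ((k : ℝ) + 1) * m + 1 ≤ (E3.card : ℝ) + 2 ^ (k + 1) := by exact_mod_cast h2
  have h4' : (E3.card : ℝ) ≤ (E2.card : ℝ) := by exact_mod_cast h4
  have h3' : ((2 * m + 1 : ℕ) : ℝ) ≤ (E1.card : ℝ) + 1 := by exact_mod_cast h3
  push_cast at h3'
  linarith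

end Pool.Agent.Lib.MP_5b7fe5_co
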