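import Mathlib
import Pool.Agent.Lib.MP_5b7fe5_co.Basic

set_option autoImplicit false
set_option linter.unusedSectionVars false

open Classical

namespace Pool.Agent.Lib.MP_5b7fe5_co

section Blocks

variable {m : ℕ} [NeZero m] (r : ℕ)

/-- is the block `j` doubled in the arrangement `s` -/
def J (s j : Fin m) : Prop := ((j - s : Fin m) : ℕ) < r

noncomputable def inc (s : Fin m) (x : ℕ) : ℕ := if ∃ j : Fin m, x = 2 * (j : ℕ) ∧ J r s j then 0 else 1

noncomputable def phi (s : Fin m) (x : ℕ) : ℕ := ∑ z ∈ Finset.range x, inc r s z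

lemma phi_succ (s : Fin m) (x : ℕ) : phi r s (x + 1) = phi r s x + inc r s x := by
  rw [phi, Finset.sum_range_succ]
  rfl

lemma phi_mono (s : Fin m) {x y : ℕ} (h : x ≤ y) : phi r s x ≤ phi r s y := by
  induction y, h using Nat.le_induction with
  | base => exact le_rfl
  | succ y _ ih => rw [phi_succ]; omega

lemma inc_zero {s : Fin m} {x : ℕ} (h : inc r s x = 0) : ∃ j : Fin m, x = 2 * (j : ℕ) ∧ J r s j := by
  by_contra hcon
  rw [inc, if_neg hcon] at h
  exact one_ne_zero h

lemma phi_eq {s : Fin m} {x y : ℕ} (hxy : x < y) (h : phi r s x = phi r s y) :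
    ∃ j : Fin m, x = 2 * (j : ℕ) ∧ J r s j ∧ y = x + 1 := by
  have h1 : phi r s (x + 1) ≤ phi r s y := phi_mono r s hxy
  rw [phi_succ] at h1
  have h2 : inc r s x = 0 := by omega
  obtain ⟨j, hj, hJ⟩ := inc_zero r h2
  refine ⟨j, hj, hJ, ?_⟩
  by_contra hne
  have h3 : x + 1 + 1 ≤ y := by omega
  have h4 := phi_mono r s h3
  rw [phi_succ, phi_succ] at h4
  have h5 : inc r s (x + 1) = 0 := by omega
  obtain ⟨j', hj', _⟩ := inc_zero r h5
  omega

lemma card_J_right (hr : r ≤ m) (s : Fin m) :
    (Finset.univ.filter fun j : Fin m => J r s j).card = r := by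
  have h1 : (Finset.univ.filter fun j : Fin m => J r s j)
      = (Finset.univ.filter fun u : Fin m => (u : ℕ) < r).map (Equiv.subRight s).symm.toEmbedding := by
    ext j
    rw [Finset.mem_map_equiv, Finset.mem_filter, Finset.mem_filter]
    simp [J]
  rw [h1, Finset.card_map, Fin.card_filter_val_lt]
  omega

lemma card_J_left (hr : r ≤ m) (j : Fin m) :
    (Finset.univ.filter fun s : Fin m => J r s j).card = r := by
  have h1 : (Finset.univ.filter fun s : Fin m => J r s j)
      = (Finset.univ.filter fun u : Fin m => (u : ℕ) < r).map (Equiv.subLeft j).symm.toEmbedding := by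
    ext s
    rw [Finset.mem_map_equiv, Finset.mem_filter, Finset.mem_filter]
    simp [J]
  rw [h1, Finset.card_map, Fin.card_filter_val_lt]
  omega

lemma phi_lt {n k : ℕ} (hmn : 2 * m ≤ n) (hr : r ≤ m) (hn : n = 2 ^ k + r) (s : Fin m) {x : ℕ}
    (hx : x < n) : phi r s x < 2 ^ k := by
  have hm : 0 < m := Nat.pos_of_ne_zero (NeZero.ne m)
  have h1 : phi r s x ≤ phi r s (n - 1) := phi_mono r s (by omega)
  have h2 : phi r s (n - 1) + r ≤ n - 1 := by
    have h3 : phi r s (n - 1)
        = ((Finset.range (n - 1)).filter fun z => ¬ ∃ j : Fin m, z = 2 * (j : ℕ) ∧ J r s j).card := by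
      rw [phi, Finset.card_filter]
      refine Finset.sum_congr rfl fun z _ => ?_
      rw [inc]
      by_cases h : ∃ j : Fin m, z = 2 * (j : ℕ) ∧ J r s j
      · rw [if_pos h, if_neg (not_not.2 h)]
      · rw [if_neg h, if_pos h]
    have h4 : r ≤ ((Finset.range (n - 1)).filter
        fun z => ∃ j : Fin m, z = 2 * (j : ℕ) ∧ J r s j).card := by
      conv_lhs => rw [← card_J_right r hr s]
      apply Finset.card_le_card_of_injOn (fun j : Fin m => 2 * (j : ℕ))
      · intro j hj
        rw [Finset.mem_coe, Finset.mem_filter] at hj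
        rw [Finset.mem_coe, Finset.mem_filter, Finset.mem_range]
        refine ⟨?_, j, rfl, hj.2⟩
        have := j.2
        simp only
        omega
      · intro j _ j' _ h
        simp only at h
        apply Fin.ext
        omega
    have h5 := Finset.card_filter_add_card_filter_not (s := Finset.range (n - 1))
      (fun z => ∃ j : Fin m, z = 2 * (j : ℕ) ∧ J r s j)
    rw [Finset.card_range] at h5
    omega
  have h6 : 0 < 2 ^ k := by positivity
  omega

end Blocks

/-- the top bit in which two numbers differ -/
lemma top_bit {a b k : ℕ} (hab : a < b) (hb : b < 2 ^ k) :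
    ∃ i, i < k ∧ a / 2 ^ (i + 1) = b / 2 ^ (i + 1) ∧ a / 2 ^ i % 2 = 0 ∧ b / 2 ^ i % 2 = 1 := by
  have hex : ∃ i, a / 2 ^ i = b / 2 ^ i := ⟨k, by
    rw [Nat.div_eq_of_lt hb, Nat.div_eq_of_lt (hab.trans hb)]⟩
  set i := Nat.find hex with hi
  have hspec := Nat.find_spec hex
  have hi0 : i ≠ 0 := by
    intro h0
    rw [← hi, h0] at hspec
    simp at hspec
    omega
  obtain ⟨l, hl⟩ := Nat.exists_eq_succ_of_ne_zero hi0
  have hmin : ¬ a / 2 ^ l = b / 2 ^ l := by
    apply Nat.find_min hex
    rw [← hi, hl]
    exact Nat.lt_succ_self l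
  have hik : i ≤ k := Nat.find_min' hex (by
    rw [Nat.div_eq_of_lt hb, Nat.div_eq_of_lt (hab.trans hb)])
  rw [← hi, hl] at hspec
  have hle : a / 2 ^ l ≤ b / 2 ^ l := Nat.div_le_div_right hab.le
  have h1 : a / 2 ^ l / 2 = b / 2 ^ l / 2 := by
    rw [Nat.div_div_eq_div_mul, Nat.div_div_eq_div_mul, ← pow_succ]
    exact hspec
  refine ⟨l, by omega, hspec, by omega, by omega⟩

theorem upper_two (n m k r : ℕ) (hm : 1 ≤ m) (hmn : 2 * m ≤ n) (hr : r ≤ m) (hn : n = 2 ^ k + r) :
    Ach n 2 (k + r / m) := by
  have : NeZero m := ⟨by omega⟩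
  have hm0 : (0 : ℝ) < m := by exact_mod_cast hm
  have hkn : 2 ^ k ≤ n := by omega
  let F : (Fin m × Fin k × Fin n) ⊕ Fin m → PFun n 2 := fun q => match q with
    | Sum.inl (s, i, c) => fun x =>
        if phi r s x / 2 ^ ((i : ℕ) + 1) = c then
          (if phi r s x / 2 ^ (i : ℕ) % 2 = 0 then some 0 else some 1) else none
    | Sum.inr j => fun x => if (x : ℕ) = 2 * j then some 0 else
        if (x : ℕ) = 2 * j + 1 then some 1 else none
  let w : (Fin m × Fin k × Fin n) ⊕ Fin m → ℝ := fun q => match q with
    | Sum.inl _ => 1 / m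
    | Sum.inr _ => r / m
  have hw0 : ∀ q, 0 ≤ w q := by
    rintro (q | j) <;> simp only [w] <;> positivity
  refine ach_of_family F w _ hw0 ?_ ?_ ?_
  · -- monotonicity
    intro q hq
    exfalso
    apply hq
    rcases q with ⟨s, i, c⟩ | j
    · intro x y a b hxy ha hb
      simp only [F] at ha hb
      by_cases h1 : phi r s x / 2 ^ ((i : ℕ) + 1) = c
      · by_cases h2 : phi r s y / 2 ^ ((i : ℕ) + 1) = c
        · rw [if_pos h1] at ha
          rw [if_pos h2] at hb
          by_cases h3 : phi r s x / 2 ^ (i : ℕ) % 2 = 0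
          · rw [if_pos h3] at ha
            rw [← Option.some.inj ha]
            exact Fin.zero_le b
          · rw [if_neg h3] at ha
            have h4 : phi r s x / 2 ^ (i : ℕ) ≤ phi r s y / 2 ^ (i : ℕ) :=
              Nat.div_le_div_right (phi_mono r s hxy)
            have h5 : phi r s x / 2 ^ (i : ℕ) / 2 = phi r s y / 2 ^ (i : ℕ) / 2 := by
              rw [Nat.div_div_eq_div_mul, Nat.div_div_eq_div_mul, ← pow_succ, h1, h2]
            have h6 : ¬ phi r s y / 2 ^ (i : ℕ) % 2 = 0 := by omega
            rw [if_neg h6] at hb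
            rw [← Option.some.inj ha, ← Option.some.inj hb]
        · rw [if_neg h2] at hb
          simp at hb
      · rw [if_neg h1] at ha
        simp at ha
    · intro x y a b hxy ha hb
      simp only [F] at ha hb
      rw [Fin.le_def] at hxy
      by_cases h1 : (x : ℕ) = 2 * j
      · rw [if_pos h1] at ha
        rw [← Option.some.inj ha]
        exact Fin.zero_le b
      · rw [if_neg h1] at ha
        by_cases h2 : (x : ℕ) = 2 * j + 1
        · rw [if_pos h2] at ha
          have h3 : ¬ (y : ℕ) = 2 * j := by omega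
          rw [if_neg h3] at hb
          by_cases h4 : (y : ℕ) = 2 * j + 1
          · rw [if_pos h4] at hb
            rw [← Option.some.inj ha, ← Option.some.inj hb]
          · rw [if_neg h4] at hb
            simp at hb
        · rw [if_neg h2] at ha
          simp at ha
  · -- separation
    intro x y hxy
    rw [Fin.lt_def] at hxy
    rw [Fintype.sum_sum_type, Fintype.sum_prod_type]
    have hterm0 : ∀ q, 0 ≤ (if Sep (F q) x y then w q else 0) := by
      intro q
      split_ifs
      · exact hw0 q
      · exact le_rfl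
    -- contribution of one arrangement
    have hs1 : ∀ s : Fin m, phi r s x < phi r s y →
        1 / (m : ℝ) ≤ ∑ q : Fin k × Fin n,
          (if Sep (F (Sum.inl (s, q))) x y then w (Sum.inl (s, q)) else 0) := by
      intro s hlt
      obtain ⟨i, hik, h1, h2, h3⟩ := top_bit hlt (phi_lt r hmn hr hn s y.2)
      have hcn : phi r s x / 2 ^ (i + 1) < n := by
        have : phi r s x < 2 ^ k := phi_lt r hmn hr hn s x.2
        exact lt_of_le_of_lt (Nat.div_le_self _ _) (this.trans_le hkn)
      have hsep : Sep (F (Sum.inl (s, (⟨i, hik⟩, ⟨phi r s x / 2 ^ (i + 1), hcn⟩)))) x y := by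
        refine ⟨0, 1, ?_, ?_, by decide⟩
        · simp only [F, if_true, h2]
        · simp only [F, h1.symm, if_true, h3]
          simp
      have h4 : 1 / (m : ℝ) = (if Sep (F (Sum.inl (s, (⟨i, hik⟩, ⟨phi r s x / 2 ^ (i + 1), hcn⟩)))) x y
          then w (Sum.inl (s, (⟨i, hik⟩, ⟨phi r s x / 2 ^ (i + 1), hcn⟩))) else 0) := by
        rw [if_pos hsep]
      rw [h4]
      exact Finset.single_le_sum (f := fun q : Fin k × Fin n =>
        if Sep (F (Sum.inl (s, q))) x y then w (Sum.inl (s, q)) else 0)
        (fun q _ => hterm0 (Sum.inl (s, q)))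
        (Finset.mem_univ ((⟨i, hik⟩, ⟨phi r s x / 2 ^ (i + 1), hcn⟩) : Fin k × Fin n))
    have hs2 : ∀ s : Fin m, (if phi r s x < phi r s y then 1 / (m : ℝ) else 0)
        ≤ ∑ q : Fin k × Fin n,
          (if Sep (F (Sum.inl (s, q))) x y then w (Sum.inl (s, q)) else 0) := by
      intro s
      split_ifs with h
      · exact hs1 s h
      · exact Finset.sum_nonneg fun q _ => hterm0 (Sum.inl (s, q))
    have hs3 := Finset.sum_le_sum fun s (_ : s ∈ (Finset.univ : Finset (Fin m))) => hs2 s
    have hle : ∀ s : Fin m, phi r s x ≤ phi r s y := fun s => phi_mono r s hxy.le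
    by_cases hall : ∀ s : Fin m, phi r s x ≠ phi r s y
    · have h1 : ∑ s : Fin m, (if phi r s x < phi r s y then 1 / (m : ℝ) else 0) = 1 := by
        rw [Finset.sum_congr rfl (g := fun _ => 1 / (m : ℝ))]
        · rw [Finset.sum_const, Finset.card_univ, Fintype.card_fin, nsmul_eq_mul]
          field_simp
        · intro s _
          rw [if_pos (lt_of_le_of_ne (hle s) (hall s))]
      have h2 : 0 ≤ ∑ j : Fin m, (if Sep (F (Sum.inr j)) x y then w (Sum.inr j) else 0) :=
        Finset.sum_nonneg fun j _ => hterm0 (Sum.inr j)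
      rw [h1] at hs3
      linarith
    · push Not at hall
      obtain ⟨s0, hs0⟩ := hall
      obtain ⟨j, hj, _, hy⟩ := phi_eq r hxy hs0
      have h1 : ∀ s : Fin m, ¬ J r s j → phi r s x < phi r s y := by
        intro s hJ
        refine lt_of_le_of_ne (hle s) ?_
        intro heq
        obtain ⟨j', hj', hJ', _⟩ := phi_eq r hxy heq
        have : j = j' := Fin.ext (by omega)
        rw [this] at hJ
        exact hJ hJ'
      have h2 : ((m : ℝ) - r) / m ≤ ∑ s : Fin m, (if phi r s x < phi r s y then 1 / (m : ℝ) else 0) := by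
        have h3 : ∑ s : Fin m, (if ¬ J r s j then 1 / (m : ℝ) else 0) = ((m : ℝ) - r) / m := by
          rw [← Finset.sum_filter, Finset.sum_const, nsmul_eq_mul]
          have h4 := Finset.card_filter_add_card_filter_not (s := (Finset.univ : Finset (Fin m)))
            (fun s => J r s j)
          rw [card_J_left r hr j, Finset.card_univ, Fintype.card_fin] at h4
          have h5 : (((Finset.univ : Finset (Fin m)).filter fun s => ¬ J r s j).card : ℝ)
              = (m : ℝ) - r := by
            have : ((r + ((Finset.univ : Finset (Fin m)).filter fun s => ¬ J r s j).card : ℕ) : ℝ)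
              = (m : ℕ) := by exact_mod_cast h4
            push_cast at this
            linarith
          rw [h5]
          field_simp
        rw [← h3]
        refine Finset.sum_le_sum fun s _ => ?_
        by_cases hJ : J r s j
        · rw [if_neg (not_not.2 hJ)]
          split_ifs <;> positivity
        · rw [if_pos hJ, if_pos (h1 s hJ)]
      have h3 : (r : ℝ) / m ≤ ∑ j : Fin m, (if Sep (F (Sum.inr j)) x y then w (Sum.inr j) else 0) := by
        have hsep : Sep (F (Sum.inr j)) x y := by
          refine ⟨0, 1, ?_, ?_, by decide⟩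
          · simp only [F]
            rw [if_pos hj]
          · simp only [F]
            rw [if_neg (by omega), if_pos (by omega)]
        have h4 : (r : ℝ) / m = (if Sep (F (Sum.inr j)) x y then w (Sum.inr j) else 0) := by
          rw [if_pos hsep]
        rw [h4]
        exact Finset.single_le_sum (f := fun j : Fin m =>
          if Sep (F (Sum.inr j)) x y then w (Sum.inr j) else 0)
          (fun j _ => hterm0 (Sum.inr j)) (Finset.mem_univ j)
      have h4 : ((m : ℝ) - r) / m + r / m = 1 := by
        field_simp
        ring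
      linarith
  · -- local weight
    intro x
    rw [Fintype.sum_sum_type, Fintype.sum_prod_type]
    have h1 : ∑ s : Fin m, ∑ q : Fin k × Fin n,
        (if F (Sum.inl (s, q)) x = none then 0 else w (Sum.inl (s, q))) ≤ k := by
      have h2 : ∀ s : Fin m, ∑ q : Fin k × Fin n,
          (if F (Sum.inl (s, q)) x = none then 0 else w (Sum.inl (s, q))) ≤ k * (1 / m) := by
        intro s
        rw [Fintype.sum_prod_type]
        have h3 : ∀ i : Fin k, ∑ c : Fin n,
            (if F (Sum.inl (s, (i, c))) x = none then 0 else w (Sum.inl (s, (i, c)))) ≤ 1 / m := by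
          intro i
          have h4 : ∀ c : Fin n, (if F (Sum.inl (s, (i, c))) x = none then 0
              else w (Sum.inl (s, (i, c))))
              ≤ if phi r s x / 2 ^ ((i : ℕ) + 1) = c then 1 / (m : ℝ) else 0 := by
            intro c
            by_cases h5 : phi r s x / 2 ^ ((i : ℕ) + 1) = c
            · rw [if_pos h5]
              split_ifs
              · positivity
              · exact le_rfl
            · have : F (Sum.inl (s, (i, c))) x = none := by
                simp only [F]
                rw [if_neg h5]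
              rw [if_pos this, if_neg h5]
          refine (Finset.sum_le_sum fun c _ => h4 c).trans ?_
          rw [← Finset.sum_filter, Finset.sum_const, nsmul_eq_mul]
          have h5 : ((Finset.univ : Finset (Fin n)).filter
              fun c : Fin n => phi r s x / 2 ^ ((i : ℕ) + 1) = (c : ℕ)).card ≤ 1 := by
            rw [Finset.card_le_one]
            intro a ha b hb
            rw [Finset.mem_filter] at ha hb
            exact Fin.ext (ha.2.symm.trans hb.2)
          have h6 : (((Finset.univ : Finset (Fin n)).filter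
              fun c : Fin n => phi r s x / 2 ^ ((i : ℕ) + 1) = (c : ℕ)).card : ℝ) ≤ 1 := by
            exact_mod_cast h5
          have h7 : (0 : ℝ) ≤ 1 / m := by positivity
          calc _ ≤ 1 * (1 / (m : ℝ)) := mul_le_mul_of_nonneg_right h6 h7
            _ = 1 / m := one_mul _
        refine (Finset.sum_le_sum fun i _ => h3 i).trans ?_
        simp
      refine (Finset.sum_le_sum fun s _ => h2 s).trans (le_of_eq ?_)
      rw [Finset.sum_const, Finset.card_univ, Fintype.card_fin, nsmul_eq_mul]
      field_simp
    have h2 : ∑ j : Fin m, (if F (Sum.inr j) x = none then 0 else w (Sum.inr j)) ≤ (r : ℝ) / m := by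
      have h4 : ∀ j : Fin m, (if F (Sum.inr j) x = none then 0 else w (Sum.inr j))
          ≤ if (x : ℕ) / 2 = j then (r : ℝ) / m else 0 := by
        intro j
        by_cases h5 : (x : ℕ) / 2 = j
        · rw [if_pos h5]
          split_ifs
          · positivity
          · exact le_rfl
        · have : F (Sum.inr j) x = none := by
            simp only [F]
            rw [if_neg (by omega), if_neg (by omega)]
          rw [if_pos this, if_neg h5]
      refine (Finset.sum_le_sum fun j _ => h4 j).trans ?_
      rw [← Finset.sum_filter, Finset.sum_const, nsmul_eq_mul]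
      have h5 : ((Finset.univ : Finset (Fin m)).filter
          fun j : Fin m => (x : ℕ) / 2 = (j : ℕ)).card ≤ 1 := by
        rw [Finset.card_le_one]
        intro a ha b hb
        rw [Finset.mem_filter] at ha hb
        exact Fin.ext (ha.2.symm.trans hb.2)
      have h6 : (((Finset.univ : Finset (Fin m)).filter
          fun j : Fin m => (x : ℕ) / 2 = (j : ℕ)).card : ℝ) ≤ 1 := by
        exact_mod_cast h5
      have h7 : (0 : ℝ) ≤ r / m := by positivity
      calc _ ≤ 1 * ((r : ℝ) / m) := mul_le_mul_of_nonneg_right h6 h7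
        _ = r / m := one_mul _
    exact add_le_add h1 h2

end Pool.Agent.Lib.MP_5b7fe5_co
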